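import Pool.Agent.Helper13.ZL.Stmts

/-!
# Module DLIB: sets of primes of Dirichlet density zero
-/

set_option autoImplicit false

open scoped Classical
open Filter Topology

namespace Pool.Agent.Helper13.ZL

theorem dlib_summable (hPZ : ST_PZ) (k : Type) [Field k] [NumberField k] (s : ℝ) (h1 : 1 < s)
    (h2 : s ≤ 2) : Summable (fun v : Pl k => (q v : ℝ) ^ (-s)) := by
  obtain ⟨C, hC⟩ := hPZ k
  have h := (hC s h1 h2).1
  simpa using h

theorem dlib_univ (k : Type) [Field k] [NumberField k] (s : ℝ) :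
    NumberField.Set.primeIdealZetaSum (Set.univ : Set (Pl k)) s
      = ∑' v : Pl k, (q v : ℝ) ^ (-s) := by
  rw [NumberField.Set.primeIdealZetaSum_def]
  exact tsum_univ (fun v : Pl k => (q v : ℝ) ^ (-s))

theorem dlib_ind (k : Type) [Field k] [NumberField k] (S : Set (Pl k)) (s : ℝ) :
    NumberField.Set.primeIdealZetaSum S s
      = ∑' v : Pl k, S.indicator (fun v : Pl k => (q v : ℝ) ^ (-s)) v := by
  rw [NumberField.Set.primeIdealZetaSum_def]
  exact tsum_subtype S (fun v : Pl k => (q v : ℝ) ^ (-s))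

theorem dlib_nonneg (k : Type) [Field k] [NumberField k] (s : ℝ) (v : Pl k) :
    0 ≤ (q v : ℝ) ^ (-s) := by positivity

theorem dlib_mono (hPZ : ST_PZ) (k : Type) [Field k] [NumberField k] (S T : Set (Pl k))
    (hTS : T ⊆ S) (s : ℝ) (h1 : 1 < s) (h2 : s ≤ 2) :
    NumberField.Set.primeIdealZetaSum T s ≤ NumberField.Set.primeIdealZetaSum S s := by
  have hs := dlib_summable hPZ k s h1 h2
  rw [dlib_ind, dlib_ind]
  refine Summable.tsum_le_tsum ?_ (hs.indicator T) (hs.indicator S)
  intro v
  exact Set.indicator_le_indicator_of_subset hTS (dlib_nonneg k s) v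

theorem dlib_union (hPZ : ST_PZ) (k : Type) [Field k] [NumberField k] (S T : Set (Pl k))
    (s : ℝ) (h1 : 1 < s) (h2 : s ≤ 2) :
    NumberField.Set.primeIdealZetaSum (S ∪ T) s ≤
      NumberField.Set.primeIdealZetaSum S s + NumberField.Set.primeIdealZetaSum T s := by
  have hs := dlib_summable hPZ k s h1 h2
  rw [dlib_ind, dlib_ind, dlib_ind, ← (hs.indicator S).tsum_add (hs.indicator T)]
  refine Summable.tsum_le_tsum ?_ (hs.indicator _) ((hs.indicator S).add (hs.indicator T))
  intro v
  have h0 := dlib_nonneg k s v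
  by_cases hS : v ∈ S
  · by_cases hT : v ∈ T
    · simp [Set.indicator, hS, hT, h0]
    · simp [Set.indicator, hS, hT]
  · by_cases hT : v ∈ T
    · simp [Set.indicator, hS, hT]
    · simp [Set.indicator, hS, hT]

theorem dlib_ev : ∀ᶠ s : ℝ in 𝓝[>] (1 : ℝ), 1 < s ∧ s ≤ 2 := by
  have h : Set.Ioc (1 : ℝ) 2 ∈ 𝓝[>] (1 : ℝ) := Ioc_mem_nhdsGT (by norm_num)
  exact h

theorem dlib_top (hPZ : ST_PZ) (k : Type) [Field k] [NumberField k] :
    Tendsto (fun s : ℝ => NumberField.Set.primeIdealZetaSum (Set.univ : Set (Pl k)) s)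
      (𝓝[>] (1 : ℝ)) atTop := by
  obtain ⟨C, hC⟩ := hPZ k
  have hlog : Tendsto (fun s : ℝ => Real.log (1 / (s - 1)) - C) (𝓝[>] (1 : ℝ)) atTop := by
    have h1 : Tendsto (fun s : ℝ => s - 1) (𝓝[>] (1 : ℝ)) (𝓝[>] (0 : ℝ)) := by
      refine tendsto_nhdsWithin_iff.2 ⟨?_, ?_⟩
      · have h : Tendsto (fun s : ℝ => s - 1) (𝓝 (1 : ℝ)) (𝓝 ((1 : ℝ) - 1)) :=
          (continuous_id.sub continuous_const).tendsto 1
        rw [sub_self] at h
        exact h.mono_left nhdsWithin_le_nhds
      · filter_upwards [self_mem_nhdsWithin] with s hs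
        have hs' : (1 : ℝ) < s := hs
        exact sub_pos.2 hs'
    have h2 : Tendsto (fun s : ℝ => 1 / (s - 1)) (𝓝[>] (1 : ℝ)) atTop := by
      have h := tendsto_inv_nhdsGT_zero.comp h1
      refine h.congr ?_
      intro s
      simp [Function.comp]
    have h3 := Real.tendsto_log_atTop.comp h2
    exact tendsto_atTop_add_const_right _ (-C) h3
  refine tendsto_atTop_mono' _ ?_ hlog
  filter_upwards [dlib_ev] with s hs
  have h := (hC s hs.1 hs.2).2
  rw [dlib_univ]
  have h4 : (∑' v : Pl k, (1 : ℝ) * (q v : ℝ) ^ (-s)) = ∑' v : Pl k, (q v : ℝ) ^ (-s) := by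
    simp
  rw [h4] at h
  have h5 := (abs_le.1 h).1
  linarith

/-- the module statement -/
theorem st_DLIB (hPZ : ST_PZ) : ST_DLIB := by
  intro k _ _
  refine ⟨?_, ?_, ?_, ?_⟩
  · intro S T hTS hS
    unfold NumberField.Set.HasDirichletDensity at hS ⊢
    refine squeeze_zero' ?_ ?_ hS
    · exact Eventually.of_forall fun s =>
        div_nonneg (NumberField.Set.primeIdealZetaSum_nonneg T s)
          (NumberField.Set.primeIdealZetaSum_nonneg _ s)
    · filter_upwards [dlib_ev] with s hs
      exact div_le_div_of_nonneg_right (dlib_mono hPZ k S T hTS s hs.1 hs.2)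
        (NumberField.Set.primeIdealZetaSum_nonneg _ s)
  · intro S T hS hT
    unfold NumberField.Set.HasDirichletDensity at hS hT ⊢
    have hST := hS.add hT
    rw [add_zero] at hST
    refine squeeze_zero' ?_ ?_ hST
    · exact Eventually.of_forall fun s =>
        div_nonneg (NumberField.Set.primeIdealZetaSum_nonneg _ s)
          (NumberField.Set.primeIdealZetaSum_nonneg _ s)
    · filter_upwards [dlib_ev] with s hs
      rw [← add_div]
      exact div_le_div_of_nonneg_right (dlib_union hPZ k S T s hs.1 hs.2)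
        (NumberField.Set.primeIdealZetaSum_nonneg _ s)
  · intro S hfin
    unfold NumberField.Set.HasDirichletDensity
    have h0 : Tendsto (fun s : ℝ => (S.ncard : ℝ) /
        NumberField.Set.primeIdealZetaSum (Set.univ : Set (Pl k)) s) (𝓝[>] (1 : ℝ)) (𝓝 0) :=
      tendsto_const_nhds.div_atTop (dlib_top hPZ k)
    refine squeeze_zero' ?_ ?_ h0
    · exact Eventually.of_forall fun s =>
        div_nonneg (NumberField.Set.primeIdealZetaSum_nonneg _ s)
          (NumberField.Set.primeIdealZetaSum_nonneg _ s)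
    · filter_upwards [dlib_ev] with s hs
      exact div_le_div_of_nonneg_right
        (NumberField.Set.primeIdealZetaSum_le_card_of_finite hfin (by linarith [hs.1]))
        (NumberField.Set.primeIdealZetaSum_nonneg _ s)
  · intro h
    unfold NumberField.Set.HasDirichletDensity at h
    have h1 : Tendsto (fun s : ℝ =>
        NumberField.Set.primeIdealZetaSum (Set.univ : Set (Pl k)) s /
          NumberField.Set.primeIdealZetaSum (Set.univ : Set (Pl k)) s) (𝓝[>] (1 : ℝ)) (𝓝 1) := by
      refine tendsto_const_nhds.congr' ?_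
      filter_upwards [(dlib_top hPZ k).eventually_gt_atTop 0] with s hs
      exact (div_self (ne_of_gt hs)).symm
    have h2 := tendsto_nhds_unique h h1
    exact zero_ne_one h2

end Pool.Agent.Helper13.ZL
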